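import Pool.Agent.Lib.MP_acafa7_al.F.IfaceC
import Pool.Agent.Lib.MP_acafa7_al.MS.H64.Wk

/-! CONA: chain of almost fixed points (PaperF 6.1), before counting. -/

namespace MSG.F47

open Classical

/-- index set of the two collapsed corner sets -/
inductive Two : Type
  | fst : Two
  | snd : Two

instance twoAct (B : Type) [Group B] : MulAction B Two where
  smul := fun _ i => i
  one_smul := fun _ => rfl
  mul_smul := fun _ _ _ => rfl

theorem two_smul (B : Type) [Group B] (b : B) (i : Two) : b • i = i := rfl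

/-- the two corner sets -/
def two {V : Type} (U U' : Finset V) : Two → Set V
  | Two.fst => (U : Set V)
  | Two.snd => (U' : Set V)

/-- numbers -/
theorem arith (β C n₀ c R L η : ℕ) : ∃ K₀ : ℕ, ∀ n, K₀ ≤ n → ∃ r : ℕ, 10 ≤ r ∧
    40 * (β * (β * (C * (3 * n) ^ 2) + (n₀ + n₀))) ≤ r ^ 3 ∧
    η * (2 * ((2 * r + β * (2 * r + 1)) + R + L * (1 + (2 * r + β * (2 * r + 1)))) + 1) ≤ n ∧
    2 * (2 * r + β * (2 * r + 1)) + 1 + 2 * R < n ∧ 2 * c + 2 ≤ n := by
  obtain ⟨E, hE⟩ : ∃ E : ℕ, E = 2 * (2 + 3 * β) + 2 * R + 2 * (L * (3 + 3 * β)) + 1 := ⟨_, rfl⟩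
  obtain ⟨M, hM⟩ : ∃ M : ℕ, M = (η + 2) * E := ⟨_, rfl⟩
  obtain ⟨A, hAd⟩ : ∃ A : ℕ, A = β * (β * (C * 9) + (n₀ + n₀)) := ⟨_, rfl⟩
  refine ⟨10 * M + 160 * A * M ^ 2 * M + 2 * c + 3, fun n hn => ?_⟩
  have hM1 : 0 < M := by
    rw [hM]; apply Nat.mul_pos <;> omega
  refine ⟨n / M, ?_⟩
  obtain ⟨r, hr⟩ : ∃ r : ℕ, r = n / M := ⟨_, rfl⟩
  rw [← hr]
  have h10 : 10 ≤ r := by
    rw [hr, Nat.le_div_iff_mul_le hM1]
    have : 0 ≤ 160 * A * M ^ 2 * M := Nat.zero_le _
    omega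
  have hA3 : 160 * A * M ^ 2 ≤ r := by
    rw [hr, Nat.le_div_iff_mul_le hM1]
    omega
  have hle : M * r ≤ n := by rw [hr]; exact Nat.mul_div_le n M
  have hlt : n < M * (r + 1) := by rw [hr]; exact Nat.lt_mul_div_succ n hM1
  have hn2 : n ≤ 2 * M * r := by nlinarith
  have he : 2 * ((2 * r + β * (2 * r + 1)) + R + L * (1 + (2 * r + β * (2 * r + 1)))) + 1 ≤
      E * r := by
    rw [hE]
    have e1 : β ≤ β * r := Nat.le_mul_of_pos_right _ (by omega)
    have e2 : R ≤ R * r := Nat.le_mul_of_pos_right _ (by omega)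
    have e3 : L ≤ L * r := Nat.le_mul_of_pos_right _ (by omega)
    have e4 : L * β ≤ L * β * r := Nat.le_mul_of_pos_right _ (by omega)
    nlinarith
  have hEr : (η + 2) * (E * r) ≤ n := by rw [← Nat.mul_assoc, ← hM]; exact hle
  have hEr1 : 0 < E * r := Nat.mul_pos (by omega) (by omega)
  refine ⟨h10, ?_, ?_, ?_, ?_⟩
  · have hn1 : 1 ≤ n := by omega
    have t1 : β * (β * (C * (3 * n) ^ 2) + (n₀ + n₀)) ≤ A * n ^ 2 := by
      have : n₀ + n₀ ≤ (n₀ + n₀) * n ^ 2 := Nat.le_mul_of_pos_right _ (by positivity)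
      calc β * (β * (C * (3 * n) ^ 2) + (n₀ + n₀))
          ≤ β * (β * (C * (3 * n) ^ 2) + (n₀ + n₀) * n ^ 2) := by gcongr
        _ = A * n ^ 2 := by rw [hAd]; ring
    have t2 : n ^ 2 ≤ (2 * M * r) ^ 2 := Nat.pow_le_pow_left hn2 2
    calc 40 * (β * (β * (C * (3 * n) ^ 2) + (n₀ + n₀))) ≤ 40 * (A * n ^ 2) := by gcongr
      _ ≤ 40 * (A * (2 * M * r) ^ 2) := by gcongr
      _ = (160 * A * M ^ 2) * r ^ 2 := by ring
      _ ≤ r * r ^ 2 := by gcongr
      _ = r ^ 3 := by ring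
  · calc _ ≤ η * (E * r) := by gcongr
      _ ≤ (η + 2) * (E * r) := by gcongr; omega
      _ ≤ n := hEr
  · have : 2 * (2 * r + β * (2 * r + 1)) + 1 + 2 * R ≤ E * r := by
      refine le_trans ?_ he
      have : 0 ≤ L * (1 + (2 * r + β * (2 * r + 1))) := Nat.zero_le _
      omega
    have h2 : 2 * (E * r) ≤ (η + 2) * (E * r) := by gcongr; omega
    omega
  · omega

theorem dist_act {V : Type} {G : SimpleGraph V} (hG : G.Connected) {B : Type} [Group B]
    [MulAction B V] (hA : Aut G B) (b : B) (x y : V) : G.dist (b • x) (b • y) = G.dist x y :=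
  H64.dist_aut hG (MulAction.toPerm b) (fun u v => hA b u v) x y

theorem isW_act {V : Type} {G : SimpleGraph V} {B : Type} [Group B]
    [MulAction B V] (hA : Aut G B) (b : B) {x y : V} {l : List V} (h : IsW G x y l) :
    IsW G (b • x) (b • y) (l.map (b • ·)) :=
  H64.B.isW_map (MulAction.toPerm b) (fun u v => hA b u v) h

theorem len_cat {V : Type} (l m : List V) : (cat l m).length = l.length + (m.length - 1) := by
  simp [cat]

theorem cona_st (h1 : TkStatement) (h2 : CMap1Statement) (h3 : CrnStatement)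
    (h4 : IdcStatement) (h5 : EngCStatement) : ConAStatement := by
  intro V G C hG p _ B _ _ _ hA hp c L hL η
  obtain ⟨R, n₀, hcr⟩ := h3 V G C hG B hA ⊤ c
  obtain ⟨K₀, hK⟩ := arith (Fintype.card B) C n₀ c R L η
  refine ⟨K₀, fun x y hx hy hxy => ?_⟩
  obtain ⟨r, hr10, hr3, hre, hrR, hc2⟩ := hK _ hxy
  obtain ⟨al, U, hxU, hUc, hUi, hUR, hal, halh⟩ := hcr x (fun b _ => hx b)
  obtain ⟨al', U', hyU, hUc', hUi', hUR', hal', halh'⟩ := hcr y (fun b _ => hy b)
  obtain ⟨γ, hγ, hγl⟩ := H64.exists_geod hG.conn x y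
  have hw1 : ∀ b : B, IsW G x (b • y) (cat γ (al' b)) := fun b =>
    H64.B.isW_cat hγ (hal' b (Subgroup.mem_top b)).1
  have hw2 : ∀ b : B, IsW G x (b • y) (cat (al b) (γ.map (b • ·))) := fun b =>
    H64.B.isW_cat (hal b (Subgroup.mem_top b)).1 (isW_act hA b hγ)
  choose W hW using fun b : B => hG.geo x (b • y) _ _ (hw1 b) (hw2 b)
  have hlen : ∀ b : B, (cat γ (al' b)).length + (cat (al b) (γ.map (b • ·))).length ≤
      3 * G.dist x y := by
    intro b
    have e1 := (hal b (Subgroup.mem_top b)).2.1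
    have e2 := (hal' b (Subgroup.mem_top b)).2.1
    rw [len_cat, len_cat, List.length_map]
    omega
  obtain ⟨S0, hS0⟩ : ∃ S0 : Finset V, S0 = (Finset.univ.biUnion W) ∪ (U ∪ U') := ⟨_, rfl⟩
  obtain ⟨S, hSd⟩ : ∃ S : Finset V, S = (Finset.univ : Finset B).biUnion
      (fun g => S0.image (fun v => g • v)) := ⟨_, rfl⟩
  have hSm : ∀ v, v ∈ S ↔ ∃ g : B, ∃ w ∈ S0, g • w = v := by
    intro v; rw [hSd]; simp
  have hS0S : ∀ v ∈ S0, v ∈ S := fun v hv => (hSm v).2 ⟨1, v, hv, one_smul B v⟩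
  have hSi : ∀ (b : B), ∀ v ∈ S, b • v ∈ S := by
    intro b v hv
    obtain ⟨g, w, hw, rfl⟩ := (hSm v).1 hv
    exact (hSm _).2 ⟨b * g, w, hw, mul_smul b g w⟩
  have hWS : ∀ b, ∀ v ∈ W b, v ∈ S := by
    intro b v hv
    apply hS0S
    rw [hS0]
    exact Finset.mem_union_left _ (Finset.mem_biUnion.2 ⟨b, Finset.mem_univ b, hv⟩)
  have hUS : ∀ v ∈ U, v ∈ S := by
    intro v hv
    apply hS0S
    rw [hS0]
    exact Finset.mem_union_right _ (Finset.mem_union_left _ hv)
  have hUS' : ∀ v ∈ U', v ∈ S := by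
    intro v hv
    apply hS0S
    rw [hS0]
    exact Finset.mem_union_right _ (Finset.mem_union_right _ hv)
  have hγS : ∀ v ∈ γ, v ∈ S := fun v hv =>
    hWS 1 v ((hW 1).mem v (List.mem_append_left _ (H64.B.cat_mem_left hv)))
  have hcard : 40 * S.card ≤ r ^ 3 := by
    have c1 : ∀ b : B, (W b).card ≤ C * (3 * G.dist x y) ^ 2 := by
      intro b
      refine (hW b).card.trans ?_
      have := hlen b
      gcongr
    have c2 : S0.card ≤ Fintype.card B * (C * (3 * G.dist x y) ^ 2) + (n₀ + n₀) := by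
      rw [hS0]
      refine (Finset.card_union_le _ _).trans (Nat.add_le_add ?_ ?_)
      · refine (Finset.card_biUnion_le).trans ?_
        refine (Finset.sum_le_card_nsmul _ _ _ (fun b _ => c1 b)).trans ?_
        simp
      · exact (Finset.card_union_le _ _).trans (Nat.add_le_add hUc hUc')
    have c3 : S.card ≤ Fintype.card B * S0.card := by
      rw [hSd]
      refine (Finset.card_biUnion_le).trans ?_
      refine (Finset.sum_le_card_nsmul _ _ S0.card (fun b _ => Finset.card_image_le)).trans ?_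
      simp
    calc 40 * S.card ≤ 40 * (Fintype.card B * S0.card) := by gcongr
      _ ≤ 40 * (Fintype.card B * (Fintype.card B * (C * (3 * G.dist x y) ^ 2) + (n₀ + n₀))) := by
        gcongr
      _ ≤ r ^ 3 := hr3
  -- distances between the corner sets
  have hfar : ∀ v ∈ U, ∀ w ∈ U', 2 * rB B r + 1 < G.dist v w := by
    intro v hv w hw
    have t1 := hG.conn.dist_triangle (u := x) (v := v) (w := y)
    have t2 := hG.conn.dist_triangle (u := v) (v := w) (w := y)
    have t3 := hUR v hv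
    have t4 := hUR' w hw
    rw [SimpleGraph.dist_comm] at t4
    unfold rB
    omega
  obtain ⟨Y, _, _, π, col, u, hCM, hu, hbu, huinj, hsur, hcl, hcp⟩ :=
    h2 V G hG.conn B hA S r Two (two U U') ⟨x, hUS x hxU⟩ hSi hr10 hcard
      (by
        intro i
        cases i
        · exact ⟨⟨x, hxU⟩, fun v hv => hUS v hv⟩
        · exact ⟨⟨y, hyU⟩, fun v hv => hUS' v hv⟩)
      (by
        intro b i v hv
        cases i
        · exact hUi b (Subgroup.mem_top b) v hv
        · exact hUi' b (Subgroup.mem_top b) v hv)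
      (by
        intro i j hij v hv w hw
        cases i <;> cases j
        · exact absurd rfl hij
        · exact hfar v hv w hw
        · rw [SimpleGraph.dist_comm]; exact hfar w hw v hv
        · exact absurd rfl hij)
  have hTk := h1 V G C hG B hA (S : Set V) Y π col hCM
  have hπx : π x = u Two.fst := hu Two.fst x hxU
  have hπy : π y = u Two.snd := hu Two.snd y hyU
  have hxy' : π x ≠ π y := by
    rw [hπx, hπy]; intro h; exact absurd (huinj _ _ h) (by simp)
  obtain ⟨D, hD1, hD2, hD3⟩ := h4 V G B hA (S : Set V) Y π col hCM hTk ⊤ x y γ al al'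
    (U : Set V) (U' : Set V) (fun b => (W b : Set V)) hγ (fun v hv => hγS v hv)
    ⟨fun b hb => (hal b hb).1, fun b hb v hv => (hal b hb).2.2 v hv,
      fun b hb v hv => hUi b hb v hv, fun b hb b' hb' => halh b hb b' hb'⟩
    ⟨fun b hb => (hal' b hb).1, fun b hb v hv => (hal' b hb).2.2 v hv,
      fun b hb v hv => hUi' b hb v hv, fun b hb b' hb' => halh' b hb b' hb'⟩
    (fun v hv => hUS v hv) (fun v hv => hUS' v hv)
    (fun v hv w hw => (hu Two.fst v hv).trans (hu Two.fst w hw).symm)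
    (fun v hv w hw => (hu Two.snd v hv).trans (hu Two.snd w hw).symm)
    (fun b _ => ⟨fun v hv => hWS b v hv,
      fun v hv => (hW b).mem v (List.mem_append_left _ hv), (hW b).hom⟩)
  have hγSet : ∀ v ∈ γ, v ∈ (S : Set V) := fun v hv => hγS v hv
  obtain ⟨l, v, hv0, hvl, hvf, hve⟩ := h5 p B Y col hp hCM.col (edw π col γ) D (π x) (π y)
    (hTk.bde x y γ hγ hγSet).1 (fun b => (hD3 b (Subgroup.mem_top b)).2)
    (fun b b' => hD2 b (Subgroup.mem_top b) b' (Subgroup.mem_top b'))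
    (fun b => (hD3 b (Subgroup.mem_top b)).1) (hTk.bde x y γ hγ hγSet).2
    (fun b => by rw [hπx, hbu, two_smul]) (fun b => by rw [hπy, hbu, two_smul])
  -- the points
  obtain ⟨e₁, he₁⟩ : ∃ e₁ : ℕ, e₁ = rB B r + R + L * (1 + rB B r) := ⟨_, rfl⟩
  have hq : ∀ i, ∃ qi : V, i ≤ l → (Dp G B qi c ∧ (∀ w ∈ S, π w = v i → G.dist qi w ≤ e₁) ∧
      (v i = π x → qi = x) ∧ (v i = π y → qi = y)) := by
    intro i
    by_cases hi : i ≤ l
    · by_cases hix : v i = π x
      · refine ⟨x, fun _ => ⟨hx, ?_, fun _ => rfl, fun h => absurd (hix.symm.trans h) hxy'⟩⟩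
        intro w hw hwi
        obtain ⟨z, hz, hwz⟩ := hcl Two.fst w hw (by rw [hwi, hix, hπx])
        have t1 := hUR z hz
        have t2 := hG.conn.dist_triangle (u := x) (v := z) (w := w)
        rw [SimpleGraph.dist_comm] at hwz
        omega
      · by_cases hiy : v i = π y
        · refine ⟨y, fun _ => ⟨hy, ?_, fun h => absurd h hix, fun _ => rfl⟩⟩
          intro w hw hwi
          obtain ⟨z, hz, hwz⟩ := hcl Two.snd w hw (by rw [hwi, hiy, hπy])
          have t1 := hUR' z hz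
          have t2 := hG.conn.dist_triangle (u := y) (v := z) (w := w)
          rw [SimpleGraph.dist_comm] at hwz
          omega
        · obtain ⟨w₀, hw₀, hw₀i⟩ := hsur (v i)
          have hne : ∀ j, π w₀ ≠ u j := by
            intro j h
            cases j
            · exact hix (by rw [← hw₀i, h, hπx])
            · exact hiy (by rw [← hw₀i, h, hπy])
          have hdp : Dp G B w₀ (rB B r) := by
            intro b
            refine hcp w₀ hw₀ (b • w₀) (hSi b w₀ hw₀) ?_ hne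
            rw [hCM.eqv b w₀ hw₀, hw₀i, hvf i hi b]
          obtain ⟨x', hx', hd'⟩ := hL w₀ _ hdp
          refine ⟨x', fun _ => ⟨hx', ?_, fun h => absurd h hix, fun h => absurd h hiy⟩⟩
          intro w hw hwi
          have t1 := hcp w₀ hw₀ w hw (hw₀i.trans hwi.symm) hne
          have t2 := hG.conn.dist_triangle (u := x') (v := w₀) (w := w)
          rw [SimpleGraph.dist_comm] at hd'
          omega
    · exact ⟨x, fun h => absurd h hi⟩
  choose q hq using hq
  have hsupp : ∀ (b : B) (P Q : Y), InSupp (D b) P Q → ∃ s ∈ W b, ∃ t ∈ W b, G.Adj s t ∧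
      π s = P ∧ π t = Q := by
    intro b P Q hPQ
    have key : ∀ P Q T, D b P Q T ≠ 0 → ∃ s ∈ W b, ∃ t ∈ W b, ∃ o ∈ W b, G.Adj s t ∧ G.Adj t o ∧
        G.Adj s o ∧ π s = P ∧ π t = Q ∧ π o = T := by
      intro P Q T hne
      obtain ⟨s, hs, t, ht, o, ho, a1, a2, a3, e1, e2, e3⟩ :=
        hTk.supp (W b : Set V) (fun v hv => hWS b v hv) _ _ (D b)
          (fun v hv => (hW b).mem v (List.mem_append_left _ hv))
          (hD1 b (Subgroup.mem_top b)) P Q T hne
      exact ⟨s, hs, t, ht, o, ho, a1, a2, a3, e1, e2, e3⟩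
    obtain ⟨T, h | h | h | h | h | h⟩ := hPQ
    · obtain ⟨s, hs, t, ht, o, ho, a1, a2, a3, e1, e2, e3⟩ := key _ _ _ h
      exact ⟨s, hs, t, ht, a1, e1, e2⟩
    · obtain ⟨s, hs, t, ht, o, ho, a1, a2, a3, e1, e2, e3⟩ := key _ _ _ h
      exact ⟨s, hs, o, ho, a3, e1, e3⟩
    · obtain ⟨s, hs, t, ht, o, ho, a1, a2, a3, e1, e2, e3⟩ := key _ _ _ h
      exact ⟨t, ht, o, ho, a2, e2, e3⟩
    · obtain ⟨s, hs, t, ht, o, ho, a1, a2, a3, e1, e2, e3⟩ := key _ _ _ h
      exact ⟨t, ht, s, hs, a1.symm, e2, e1⟩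
    · obtain ⟨s, hs, t, ht, o, ho, a1, a2, a3, e1, e2, e3⟩ := key _ _ _ h
      exact ⟨o, ho, s, hs, a3.symm, e3, e1⟩
    · obtain ⟨s, hs, t, ht, o, ho, a1, a2, a3, e1, e2, e3⟩ := key _ _ _ h
      exact ⟨o, ho, t, ht, a2.symm, e3, e2⟩
  have hsuppe : ∀ (P Q : Y), (edw π col γ P Q ≠ 0 ∨ edw π col γ Q P ≠ 0) → ∃ s ∈ γ, ∃ t ∈ γ,
      G.Adj s t ∧ π s = P ∧ π t = Q := by
    intro P Q h
    rcases h with h | h
    · exact hTk.suppe x y γ hγ P Q h
    · obtain ⟨s, hs, t, ht, a, e1, e2⟩ := hTk.suppe x y γ hγ Q P h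
      exact ⟨t, ht, s, hs, a.symm, e2, e1⟩
  have hstep : ∀ i, i < l → ∀ s ∈ S, ∀ t ∈ S, G.Adj s t → π s = v i → π t = v (i + 1) →
      G.dist (q i) (q (i + 1)) ≤ 2 * e₁ + 1 := by
    intro i hi s hs t ht hst hsi hti
    have t1 := (hq i (by omega)).2.1 s hs hsi
    have t2 := (hq (i + 1) (by omega)).2.1 t ht hti
    have t3 : G.dist s t = 1 := SimpleGraph.dist_eq_one_iff_adj.2 hst
    have t4 := hG.conn.dist_triangle (u := q i) (v := s) (w := q (i + 1))
    have t5 := hG.conn.dist_triangle (u := s) (v := t) (w := q (i + 1))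
    rw [SimpleGraph.dist_comm] at t2
    omega
  refine ⟨2 * e₁ + 1, l, q, γ, W, ?_, hγ, hγl, (hq 0 (by omega)).2.2.1 hv0,
    (hq l le_rfl).2.2.2 hvl, fun i hi => (hq i hi).1, ?_, ?_, ?_⟩
  · rw [he₁]; unfold rB; exact hre
  · intro i hi
    rcases hve i hi with h | h
    · obtain ⟨s, hs, t, ht, a, e1, e2⟩ := hsuppe _ _ h
      exact hstep i hi s (hγS s hs) t (hγS t ht) a e1 e2
    · have hpos : 0 < Fintype.card B := Fintype.card_pos
      have hne : (Finset.univ.filter (fun b => InSupp (D b) (v i) (v (i + 1)))).Nonempty := by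
        rw [← Finset.card_pos]; omega
      obtain ⟨b, hb⟩ := hne
      obtain ⟨s, hs, t, ht, a, e1, e2⟩ := hsupp b _ _ (Finset.mem_filter.1 hb).2
      exact hstep i hi s (hWS b s hs) t (hWS b t ht) a e1 e2
  · intro b s T hT hsep
    refine ((hW b).sep s T hT hsep).trans ?_
    have := hlen b
    gcongr
  · intro i hi
    rcases hve i hi with h | h
    · left
      obtain ⟨s, hs, t, ht, a, e1, e2⟩ := hsuppe _ _ h
      exact ⟨s, hs, ((hq i (by omega)).2.1 s (hγS s hs) e1).trans (by omega)⟩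
    · right
      refine h.trans (Nat.mul_le_mul_left 2 (Finset.card_le_card ?_))
      intro b hb
      obtain ⟨s, hs, t, ht, a, e1, e2⟩ := hsupp b _ _ (Finset.mem_filter.1 hb).2
      exact Finset.mem_filter.2 ⟨Finset.mem_univ b, s, hs,
        ((hq i (by omega)).2.1 s (hWS b s hs) e1).trans (by omega)⟩

end MSG.F47
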