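import Pool.Agent.Lib.MP_acafa7_al.F.IfaceG

/-! GEO: fillings of quadratic size with few separated points (PaperF 2.7). -/

namespace MSG.F47

open Classical

theorem chain_dist {V : Type} {G : SimpleGraph V} (hG : G.Connected) (w : List V)
    (hw : w.IsChain G.Adj) (i k : ℕ) : ∀ (h : i + k < w.length),
    G.dist (w[i]'(by omega)) (w[i + k]'h) ≤ k := by
  induction k with
  | zero => intro h; simp
  | succ k ih =>
    intro h
    have h1 := ih (by omega)
    have h2 : G.Adj (w[i + k]'(by omega)) (w[i + k + 1]'(by omega)) :=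
      (List.isChain_iff_getElem.1 hw) (i + k) (by omega)
    have h3 := hG.dist_triangle (u := w[i]'(by omega)) (v := w[i + k]'(by omega))
      (w := w[i + k + 1]'(by omega))
    rw [SimpleGraph.dist_eq_one_iff_adj.2 h2] at h3
    have h4 : w[i + (k + 1)]'h = w[i + k + 1]'(by omega) := rfl
    rw [h4]
    omega

theorem near_count {V : Type} {G : SimpleGraph V} (hG : G.Connected) (w : List V)
    (hw : w.IsChain G.Adj) (m s : ℕ) (hm : 1 ≤ m) (hs : 4 * m ≤ s) (T : Finset V)
    (hT : ∀ u ∈ T, ∃ v ∈ w, G.dist u v < m)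
    (hsep : ∀ u ∈ T, ∀ v ∈ T, u ≠ v → s ≤ G.dist u v) : 2 * m * T.card ≤ w.length + 2 * m := by
  have h1 : ∀ u : V, ∃ i : ℕ, u ∈ T → ∃ h : i < w.length, G.dist u (w[i]'h) < m := by
    intro u
    by_cases hu : u ∈ T
    · obtain ⟨v, hv, hd⟩ := hT u hu
      obtain ⟨i, hi, rfl⟩ := List.mem_iff_getElem.1 hv
      exact ⟨i, fun _ => ⟨hi, hd⟩⟩
    · exact ⟨0, fun h => absurd h hu⟩
  choose idx hidx using h1
  have key : ∀ u ∈ T, ∀ v ∈ T, u ≠ v → idx u ≤ idx v → idx u / (2 * m) ≠ idx v / (2 * m) := by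
    intro u hu v hv huv hle heq
    obtain ⟨i1, d1⟩ := hidx u hu
    obtain ⟨i2, d2⟩ := hidx v hv
    have hlt : idx v < idx u + 2 * m := by
      have a1 := Nat.div_add_mod (idx u) (2 * m)
      have a2 := Nat.div_add_mod (idx v) (2 * m)
      have a3 := Nat.mod_lt (idx v) (show 0 < 2 * m by omega)
      rw [← heq] at a2
      omega
    obtain ⟨k, hk⟩ := Nat.exists_eq_add_of_le hle
    have d3 := chain_dist hG w hw (idx u) k (by omega)
    have d4 : G.dist (w[idx u]'i1) (w[idx v]'i2) ≤ k := by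
      have : ∀ j (hj : j < w.length), j = idx u + k → G.dist (w[idx u]'i1) (w[j]'hj) ≤ k := by
        intro j hj hjk
        subst hjk
        exact d3
      exact this (idx v) i2 hk
    have t1 := hG.dist_triangle (u := u) (v := w[idx u]'i1) (w := v)
    have t2 := hG.dist_triangle (u := w[idx u]'i1) (v := w[idx v]'i2) (w := v)
    have t3 := hsep u hu v hv huv
    rw [SimpleGraph.dist_comm] at d2
    omega
  have hcard : T.card ≤ (Finset.range (w.length / (2 * m) + 1)).card := by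
    refine Finset.card_le_card_of_injOn (fun u => idx u / (2 * m)) ?_ ?_
    · intro u hu
      obtain ⟨i1, d1⟩ := hidx u hu
      simp only [Finset.coe_range, Set.mem_Iio]
      have := Nat.div_le_div_right (c := 2 * m) (le_of_lt i1)
      omega
    · intro u hu v hv huv
      by_contra hne
      rcases le_total (idx u) (idx v) with h | h
      · exact key u hu v hv hne h huv
      · exact key v hv u hu (Ne.symm hne) h huv.symm
  rw [Finset.card_range] at hcard
  have h2 := Nat.mul_div_le w.length (2 * m)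
  calc 2 * m * T.card ≤ 2 * m * (w.length / (2 * m) + 1) := Nat.mul_le_mul_left _ hcard
    _ = 2 * m * (w.length / (2 * m)) + 2 * m := by ring
    _ ≤ w.length + 2 * m := by omega

theorem um_mono {V D : Type} [Fintype D] (G : SimpleGraph V) (M : PMap V D) (R : List D) (q : V)
    (m : ℕ) : Um G M R q m ≤ Um G M R q (m + 1) := by
  unfold Um
  apply Finset.card_le_card
  intro d hd
  rw [Finset.mem_filter] at hd ⊢
  refine ⟨hd.1, hd.2.1, ?_⟩
  rcases hd.2.2 with h | h | h
  · left; omega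
  · right; left; omega
  · right; right; omega

theorem lower (h4 : GrowStatement) (h5 : GrNStatement) {V D : Type} [Fintype D]
    {G : SimpleGraph V} {C₁ : ℕ} (hG : G.Connected) (hS : ScN G) (hQ : QI G C₁) {M : PMap V D}
    {R : List D} {w : List V} (hM : IsMin G M R w) (d₀ : D) (n : ℕ) (hn : 1 ≤ n)
    (hw : ∀ v ∈ w, n ≤ G.dist (M.f d₀) v) : 3 * n ^ 2 ≤ 4 * C₁ * Um G M R (M.f d₀) n := by
  refine h5 C₁ n (fun m => Um G M R (M.f d₀) m) hn (fun m _ => um_mono G M R _ m) ?_ ?_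
  · intro m hm
    exact h4 V G C₁ hG hS hQ D M R w hM (M.f d₀) m (fun v hv => by have := hw v hv; omega)
  · show 1 ≤ Um G M R (M.f d₀) 1
    unfold Um
    rw [Nat.one_le_iff_ne_zero, ← Nat.pos_iff_ne_zero, Finset.card_pos]
    refine ⟨d₀, ?_⟩
    rw [Finset.mem_filter]
    refine ⟨Finset.mem_univ _, ?_, Or.inl (by simp)⟩
    intro hd
    have hmem : M.f d₀ ∈ w := by
      rw [hM.1.walk]
      exact List.mem_append_left _ (List.mem_map_of_mem hd)
    have := hw _ hmem
    simp at this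
    omega

theorem far_count {V D : Type} [Fintype D] {G : SimpleGraph V} (hG : G.Connected)
    {M : PMap V D} {R : List D} {w : List V} (hP : IsPF G M R w) (K m s : ℕ) (hs : 2 * m ≤ s)
    (T : Finset V) (hT : ∀ u ∈ T, 3 * m ^ 2 ≤ K * Um G M R u m)
    (hsep : ∀ u ∈ T, ∀ v ∈ T, u ≠ v → s ≤ G.dist u v) :
    3 * m ^ 2 * T.card ≤ K * Fintype.card D := by
  have hadj : ∀ d, G.Adj (M.f d) (M.f (M.φ d)) := by
    intro d
    have := hP.adj d
    rwa [M.tgt] at this
  let F : V → Finset D := fun u => Finset.univ.filter (fun d : D => d ∉ R ∧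
    (G.dist u (M.f d) < m ∨ G.dist u (M.f (M.φ d)) < m ∨ G.dist u (M.f (M.φ (M.φ d))) < m))
  have hF : ∀ u, (F u).card = Um G M R u m := fun u => rfl
  have hnear : ∀ u d, d ∈ F u → d ∉ R ∧ ∃ a : V, (a = M.f d ∨ a = M.f (M.φ d) ∨
      a = M.f (M.φ (M.φ d))) ∧ G.dist u a < m := by
    intro u d hd
    have hd2 := (Finset.mem_filter.1 hd).2
    refine ⟨hd2.1, ?_⟩
    rcases hd2.2 with h | h | h
    · exact ⟨_, Or.inl rfl, h⟩
    · exact ⟨_, Or.inr (Or.inl rfl), h⟩
    · exact ⟨_, Or.inr (Or.inr rfl), h⟩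
  have hdisj : ∀ u ∈ T, ∀ v ∈ T, u ≠ v → Disjoint (F u) (F v) := by
    intro u hu v hv huv
    rw [Finset.disjoint_left]
    intro d hdu hdv
    obtain ⟨hR, a, ha, hda⟩ := hnear u d hdu
    obtain ⟨_, b, hb, hdb⟩ := hnear v d hdv
    have htri : M.φ (M.φ (M.φ d)) = d := (hP.off.2 d hR).1
    have h12 := hadj d
    have h23 := hadj (M.φ d)
    have h31 := hadj (M.φ (M.φ d))
    rw [htri] at h31
    have hab : G.dist a b ≤ 1 := by
      have e12 := SimpleGraph.dist_eq_one_iff_adj.2 h12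
      have e23 := SimpleGraph.dist_eq_one_iff_adj.2 h23
      have e31 := SimpleGraph.dist_eq_one_iff_adj.2 h31
      have e21 := SimpleGraph.dist_eq_one_iff_adj.2 h12.symm
      have e32 := SimpleGraph.dist_eq_one_iff_adj.2 h23.symm
      have e13 := SimpleGraph.dist_eq_one_iff_adj.2 h31.symm
      rcases ha with rfl | rfl | rfl <;> rcases hb with rfl | rfl | rfl <;>
        first
          | (rw [SimpleGraph.dist_self]; omega)
          | omega
    have t1 := hG.dist_triangle (u := u) (v := a) (w := v)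
    have t2 := hG.dist_triangle (u := a) (v := b) (w := v)
    have t3 := hsep u hu v hv huv
    rw [SimpleGraph.dist_comm] at hdb
    omega
  have hsum : ∑ u ∈ T, (F u).card ≤ Fintype.card D := by
    rw [← Finset.card_biUnion hdisj]
    exact Finset.card_le_univ _
  calc 3 * m ^ 2 * T.card = ∑ u ∈ T, 3 * m ^ 2 := by simp [mul_comm]
    _ ≤ ∑ u ∈ T, K * (F u).card := Finset.sum_le_sum (fun u hu => hT u hu)
    _ = K * ∑ u ∈ T, (F u).card := by rw [Finset.mul_sum]
    _ ≤ K * Fintype.card D := Nat.mul_le_mul_left _ hsum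

theorem geo_st (h1 : PExStatement) (h2 : D2HStatement) (h3 : NulHStatement)
    (h4 : GrowStatement) (h5 : GrNStatement) : GeoStatement := by
  intro C₁
  refine ⟨100 * (1 + 3 * C₁) * (1 + C₁), ?_⟩
  intro V G hG hS hQ x w hw hlen
  obtain ⟨D, _, M, R, hM⟩ := h1 V G x w hw hlen (hS x w hw)
  have hQI := hQ D M R w hM
  have hRne : R ≠ [] := hM.1.face.1
  have hRl : R.length + 1 = w.length := by
    rw [hM.1.walk]
    unfold PMap.wk
    rw [List.length_append, List.length_take, List.length_map]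
    have := List.length_pos_iff.2 hRne
    omega
  have hD : Fintype.card D ≤ (1 + 3 * C₁) * w.length ^ 2 := by
    have e1 : R.length ≤ w.length ^ 2 := by nlinarith
    have e2 : R.length ^ 2 ≤ w.length ^ 2 := Nat.pow_le_pow_left (by omega) 2
    calc Fintype.card D ≤ R.length + 3 * (C₁ * R.length ^ 2) := hQI
      _ ≤ w.length ^ 2 + 3 * (C₁ * w.length ^ 2) := by gcongr
      _ = (1 + 3 * C₁) * w.length ^ 2 := by ring
  obtain ⟨S, hSd⟩ : ∃ S : Finset V, S = Finset.univ.image M.f := ⟨_, rfl⟩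
  have hfS : ∀ d, M.f d ∈ S := fun d => by
    rw [hSd]; exact Finset.mem_image_of_mem _ (Finset.mem_univ d)
  have hSf : ∀ q ∈ S, ∃ d, M.f d = q := by
    intro q hq
    rw [hSd, Finset.mem_image] at hq
    obtain ⟨d, _, h⟩ := hq
    exact ⟨d, h⟩
  have hwS : ∀ v ∈ w, v ∈ S := by
    intro v hv
    rw [hM.1.walk] at hv
    have hv' : v ∈ R.map M.f := by
      rcases List.mem_append.1 hv with h | h
      · exact h
      · exact List.mem_of_mem_take h
    obtain ⟨d, _, rfl⟩ := List.mem_map.1 hv'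
    exact hfS d
  have hScard : S.card ≤ Fintype.card D := by
    rw [hSd]; exact Finset.card_image_le
  obtain ⟨n₀, e₀, hnul, _⟩ := h2 V D G (S : Set V) M R w hM.1 (fun d => hfS d)
  have hhom := h3 V G (S : Set V) x w e₀ n₀ hnul (fun v hv => hwS v hv) hw
  refine ⟨S, hwS, hhom, ?_, ?_, ?_⟩
  · refine (hScard.trans hD).trans ?_
    gcongr
    nlinarith [Nat.zero_le C₁, Nat.zero_le (C₁ * C₁)]
  · -- radius
    intro q hq
    obtain ⟨d₀, rfl⟩ := hSf q hq
    by_contra hcon
    push Not at hcon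
    obtain ⟨n, hn⟩ : ∃ n : ℕ, n = 100 * (1 + 3 * C₁) * (1 + C₁) * w.length := ⟨_, rfl⟩
    have hn1 : 1 ≤ n := by
      rw [hn]
      have : 0 < 100 * (1 + 3 * C₁) * (1 + C₁) * w.length := by positivity
      omega
    have hlow := lower h4 h5 hG hS hQ hM d₀ n hn1 (fun v hv => by
      have := hcon v hv
      rw [← hn] at this
      omega)
    have hU : Um G M R (M.f d₀) n ≤ Fintype.card D := by
      unfold Um; exact Finset.card_le_univ _
    have e1 : 3 * n ^ 2 ≤ 4 * C₁ * ((1 + 3 * C₁) * w.length ^ 2) :=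
      hlow.trans (Nat.mul_le_mul_left _ (hU.trans hD))
    have e2 : 4 * C₁ * ((1 + 3 * C₁) * w.length ^ 2) < 3 * n ^ 2 := by
      have hw2 : 0 < w.length ^ 2 := by positivity
      have e3 : 4 * C₁ * (1 + 3 * C₁) < 3 * (100 * (1 + 3 * C₁) * (1 + C₁)) ^ 2 := by
        have a1 : 1 ≤ (1 + 3 * C₁) * (1 + C₁) := by nlinarith [Nat.zero_le C₁]
        have a2 : C₁ * (1 + 3 * C₁) ≤ (1 + 3 * C₁) * (1 + C₁) := by nlinarith
        have a3 : (1 + 3 * C₁) * (1 + C₁) ≤ ((1 + 3 * C₁) * (1 + C₁)) ^ 2 := by nlinarith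
        calc 4 * C₁ * (1 + 3 * C₁) = 4 * (C₁ * (1 + 3 * C₁)) := by ring
          _ ≤ 4 * ((1 + 3 * C₁) * (1 + C₁)) ^ 2 := by
            have := a2.trans a3
            omega
          _ < 30000 * ((1 + 3 * C₁) * (1 + C₁)) ^ 2 := by
            have : 1 ≤ ((1 + 3 * C₁) * (1 + C₁)) ^ 2 := a1.trans a3
            omega
          _ = 3 * (100 * (1 + 3 * C₁) * (1 + C₁)) ^ 2 := by ring
      calc 4 * C₁ * ((1 + 3 * C₁) * w.length ^ 2) = (4 * C₁ * (1 + 3 * C₁)) * w.length ^ 2 := by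
            ring
        _ < (3 * (100 * (1 + 3 * C₁) * (1 + C₁)) ^ 2) * w.length ^ 2 :=
            Nat.mul_lt_mul_of_pos_right e3 hw2
        _ = 3 * n ^ 2 := by rw [hn]; ring
    omega
  · -- separated sets
    intro s T hTS hsep
    obtain ⟨W, hW⟩ : ∃ W : ℕ, W = w.length := ⟨_, rfl⟩
    rw [← hW]
    rw [← hW] at hD
    by_cases hs8 : s < 8
    · have hTc : T.card ≤ (1 + 3 * C₁) * W ^ 2 :=
        (Finset.card_le_card hTS).trans (hScard.trans hD)
      have hs2 : s ^ 2 ≤ 64 := by nlinarith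
      calc s ^ 2 * T.card ≤ 64 * ((1 + 3 * C₁) * W ^ 2) := Nat.mul_le_mul hs2 hTc
        _ ≤ 100 * (1 + 3 * C₁) * (1 + C₁) * (s + W) ^ 2 := by
          have a1 : W ^ 2 ≤ (s + W) ^ 2 := Nat.pow_le_pow_left (by omega) 2
          calc 64 * ((1 + 3 * C₁) * W ^ 2) = 64 * (1 + 3 * C₁) * 1 * W ^ 2 := by ring
            _ ≤ 100 * (1 + 3 * C₁) * (1 + C₁) * (s + W) ^ 2 := by gcongr <;> omega
    · obtain ⟨m, hm⟩ : ∃ m : ℕ, m = s / 4 := ⟨_, rfl⟩
      have hm2 : 2 ≤ m := by omega
      have hm4 : 4 * m ≤ s := by omega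
      have hm6 : s ≤ 6 * m := by omega
      let T₁ := T.filter (fun u => ∀ v ∈ w, m ≤ G.dist u v)
      let T₂ := T.filter (fun u => ¬ ∀ v ∈ w, m ≤ G.dist u v)
      have hsplit : T₁.card + T₂.card = T.card := Finset.card_filter_add_card_filter_not _
      have hT1 : 3 * m ^ 2 * T₁.card ≤ 4 * C₁ * Fintype.card D := by
        refine far_count hG hM.1 (4 * C₁) m s (by omega) T₁ ?_ ?_
        · intro u hu
          have hu' := Finset.mem_filter.1 hu
          obtain ⟨d₀, rfl⟩ := hSf u (hTS hu'.1)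
          exact lower h4 h5 hG hS hQ hM d₀ m (by omega) hu'.2
        · intro u hu v hv
          exact hsep u (Finset.mem_filter.1 hu).1 v (Finset.mem_filter.1 hv).1
      have hT2 : 2 * m * T₂.card ≤ w.length + 2 * m := by
        refine near_count hG w hw.chain m s (by omega) hm4 T₂ ?_ ?_
        · intro u hu
          have hu' := (Finset.mem_filter.1 hu).2
          push Not at hu'
          exact hu'
        · intro u hu v hv
          exact hsep u (Finset.mem_filter.1 hu).1 v (Finset.mem_filter.1 hv).1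
      rw [← hW] at hT2
      have hs36 : s ^ 2 ≤ 36 * m ^ 2 := by
        calc s ^ 2 ≤ (6 * m) ^ 2 := Nat.pow_le_pow_left hm6 2
          _ = 36 * m ^ 2 := by ring
      have b1 : s ^ 2 * T₁.card ≤ 48 * C₁ * (1 + 3 * C₁) * W ^ 2 := by
        calc s ^ 2 * T₁.card ≤ 36 * m ^ 2 * T₁.card := Nat.mul_le_mul_right _ hs36
          _ = 12 * (3 * m ^ 2 * T₁.card) := by ring
          _ ≤ 12 * (4 * C₁ * Fintype.card D) := Nat.mul_le_mul_left _ hT1
          _ ≤ 12 * (4 * C₁ * ((1 + 3 * C₁) * W ^ 2)) := by gcongr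
          _ = 48 * C₁ * (1 + 3 * C₁) * W ^ 2 := by ring
      have b2 : s ^ 2 * T₂.card ≤ 36 * (s + W) ^ 2 := by
        calc s ^ 2 * T₂.card ≤ 36 * m ^ 2 * T₂.card := Nat.mul_le_mul_right _ hs36
          _ = 18 * m * (2 * m * T₂.card) := by ring
          _ ≤ 18 * m * (W + 2 * m) := Nat.mul_le_mul_left _ hT2
          _ ≤ 18 * (s + W) * (W + 2 * s) := by gcongr <;> omega
          _ ≤ 18 * (s + W) * (2 * (s + W)) := by gcongr; omega
          _ = 36 * (s + W) ^ 2 := by ring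
      have a1 : W ^ 2 ≤ (s + W) ^ 2 := Nat.pow_le_pow_left (by omega) 2
      calc s ^ 2 * T.card = s ^ 2 * T₁.card + s ^ 2 * T₂.card := by rw [← hsplit]; ring
        _ ≤ 48 * C₁ * (1 + 3 * C₁) * W ^ 2 + 36 * (s + W) ^ 2 := Nat.add_le_add b1 b2
        _ ≤ 48 * C₁ * (1 + 3 * C₁) * (s + W) ^ 2 + 36 * (s + W) ^ 2 := by gcongr
        _ = (48 * C₁ * (1 + 3 * C₁) + 36) * (s + W) ^ 2 := by ring
        _ ≤ (100 * (1 + 3 * C₁) * (1 + C₁)) * (s + W) ^ 2 := by
          gcongr
          nlinarith [Nat.zero_le C₁, Nat.zero_le (C₁ * C₁)]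

end MSG.F47
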